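import Pool.Agent.Lib.MP_a0a715_lc.Basis.Sem

/-!
# Functional completeness in the presence of the constant zero
-/

namespace Pool.Agent.MPa0a715

/-! ### non-affine functions -/

section affine
variable {n : ℕ}

/-- flip one coordinate -/
def fl (x : Fin n → Bool) (i : Fin n) : Fin n → Bool := Function.update x i (!x i)

/-- flip the coordinates in a set -/
def fls (x : Fin n → Bool) (S : Finset (Fin n)) : Fin n → Bool :=
  fun t => if t ∈ S then !x t else x t

theorem fl_fl (x : Fin n → Bool) (i : Fin n) : fl (fl x i) i = x := by
  funext t
  unfold fl
  by_cases h : t = i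
  · subst h
    simp
  · simp [Function.update_of_ne h]

theorem fls_empty (x : Fin n → Bool) : fls x ∅ = x := by
  funext t
  simp [fls]

theorem fls_insert (x : Fin n → Bool) {S : Finset (Fin n)} {a : Fin n} (ha : a ∉ S) :
    fls x (insert a S) = fl (fls x S) a := by
  funext t
  unfold fls fl
  by_cases h : t = a
  · subst h
    simp [ha]
  · simp [h]

theorem const_of_flip {g : (Fin n → Bool) → Bool} (h : ∀ x j, g (fl x j) = g x)
    (S : Finset (Fin n)) (x : Fin n → Bool) : g (fls x S) = g x := by
  induction S using Finset.induction_on with
  | empty => rw [fls_empty]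
  | insert a S ha ih => rw [fls_insert x ha, h, ih]

theorem fls_diff (x y : Fin n → Bool) : fls x (Finset.univ.filter fun t => x t ≠ y t) = y := by
  funext t
  unfold fls
  by_cases h : x t = y t
  · simp [h]
  · simp only [Finset.mem_filter, Finset.mem_univ, true_and, ne_eq, h, not_false_eq_true,
      if_true]
    revert h
    cases x t <;> cases y t <;> simp

/-- a non-affine function is non-affine in two variables -/
theorem local_violation {f : (Fin n → Bool) → Bool}
    (h : ¬ ∀ x y z : Fin n → Bool,
      f (fun i => (x i).xor ((y i).xor (z i))) = (f x).xor ((f y).xor (f z))) :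
    ∃ x i j, i ≠ j ∧
      ((f x).xor (f (fl x i))).xor ((f (fl x j)).xor (f (fl (fl x j) i))) = true := by
  by_contra hcon
  push Not at hcon
  apply h
  have hD : ∀ i : Fin n, ∀ x y : Fin n → Bool,
      (f x).xor (f (fl x i)) = (f y).xor (f (fl y i)) := by
    intro i
    have h1 : ∀ x j, (f (fl x j)).xor (f (fl (fl x j) i)) = (f x).xor (f (fl x i)) := by
      intro x j
      by_cases hij : i = j
      · subst hij
        rw [fl_fl, Bool.xor_comm]
      · have := hcon x i j hij
        revert this
        cases f x <;> cases f (fl x i) <;> cases f (fl x j) <;> cases f (fl (fl x j) i) <;> simp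
    intro x y
    have h2 := const_of_flip (g := fun x => (f x).xor (f (fl x i))) h1
      (Finset.univ.filter fun t => x t ≠ y t) x
    rw [fls_diff] at h2
    exact h2.symm
  have hS : ∀ (S : Finset (Fin n)) (y z : Fin n → Bool),
      (f (fls y S)).xor (f y) = (f (fls z S)).xor (f z) := by
    intro S
    induction S using Finset.induction_on with
    | empty => intro y z; rw [fls_empty, fls_empty, Bool.xor_self, Bool.xor_self]
    | insert a S ha ih =>
      intro y z
      rw [fls_insert y ha, fls_insert z ha]
      have h1 := hD a (fls y S) (fls z S)
      have h2 := ih y z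
      revert h1 h2
      cases f (fls y S) <;> cases f (fl (fls y S) a) <;> cases f (fls z S) <;>
        cases f (fl (fls z S) a) <;> cases f y <;> cases f z <;> simp
  intro x y z
  have h1 := hS (Finset.univ.filter fun t => z t ≠ x t) y z
  rw [fls_diff] at h1
  have h2 : fls y (Finset.univ.filter fun t => z t ≠ x t) =
      fun i => (x i).xor ((y i).xor (z i)) := by
    funext t
    unfold fls
    by_cases h : z t = x t
    · simp only [Finset.mem_filter, Finset.mem_univ, true_and, ne_eq, h, not_true_eq_false,
        if_false]
      cases x t <;> cases y t <;> rfl
    · simp only [Finset.mem_filter, Finset.mem_univ, true_and, ne_eq, h, not_false_eq_true,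
        if_true]
      revert h
      cases x t <;> cases y t <;> cases z t <;> simp
  rw [← h2]
  revert h1
  cases f (fls y (Finset.univ.filter fun t => z t ≠ x t)) <;> cases f x <;> cases f y <;>
    cases f z <;> simp

end affine

/-- bases that are not 0-preserving, not monotone and not affine -/
structure Hard (B : List BFun) : Prop where
  zero : ¬ ZeroPreserving B
  mono : ¬ MonotoneBasis B
  aff : ¬ AffineBasis B

/-- functions that agree with a formula over the basis when variable `0` is zero -/
def SS (B : List BFun) (k : ℕ) (h : (ℕ → Bool) → Bool) : Prop :=
  ∃ g, Cl B k g ∧ ∀ v, v 0 = false → g v = h v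

section
variable {B : List BFun} {k : ℕ}

theorem exists_index {f : BFun} (hf : f ∈ B) : ∃ b : ℕ, B[b]? = some f := by
  obtain ⟨b, hb, h⟩ := List.getElem_of_mem hf
  exact ⟨b, by rw [List.getElem?_eq_getElem hb, h]⟩

theorem Hard.one (hB : Hard B) : ∃ (b : ℕ) (f : BFun), B[b]? = some f ∧ f.2 (fun _ => false) = true := by
  have := hB.zero
  unfold ZeroPreserving at this
  push Not at this
  obtain ⟨f, hf, h⟩ := this
  obtain ⟨b, hb⟩ := exists_index hf
  refine ⟨b, f, hb, ?_⟩
  cases h2 : f.2 fun _ => false with
  | true => rfl
  | false => exact absurd h2 h

theorem Hard.two (hB : Hard B) : ∃ (b : ℕ) (f : BFun), B[b]? = some f ∧ ∃ u w : Fin f.1 → Bool,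
    u ≤ w ∧ f.2 u = true ∧ f.2 w = false := by
  have := hB.mono
  unfold MonotoneBasis at this
  push Not at this
  obtain ⟨f, hf, h⟩ := this
  obtain ⟨b, hb⟩ := exists_index hf
  refine ⟨b, f, hb, ?_⟩
  unfold Monotone at h
  push Not at h
  obtain ⟨u, w, huw, h1⟩ := h
  refine ⟨u, w, huw, ?_⟩
  revert h1
  cases f.2 u <;> cases f.2 w <;> simp

theorem Hard.three (hB : Hard B) : ∃ (b : ℕ) (f : BFun), B[b]? = some f ∧ ∃ (x : Fin f.1 → Bool) (i j : Fin f.1),
    i ≠ j ∧ ((f.2 x).xor (f.2 (fl x i))).xor ((f.2 (fl x j)).xor (f.2 (fl (fl x j) i))) =
      true := by
  have := hB.aff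
  unfold AffineBasis at this
  push Not at this
  obtain ⟨f, hf, x, y, z, h⟩ := this
  obtain ⟨b, hb⟩ := exists_index hf
  refine ⟨b, f, hb, ?_⟩
  exact local_violation fun hall => h (hall x y z)

theorem SS.congr {h h' : (ℕ → Bool) → Bool} (hh : SS B k h)
    (he : ∀ v, v 0 = false → h v = h' v) : SS B k h' := by
  obtain ⟨g, h1, h2⟩ := hh
  exact ⟨g, h1, fun v hv => (h2 v hv).trans (he v hv)⟩

theorem SS.var {i : ℕ} (hi : i < k) : SS B k fun v => v i := ⟨_, Cl.var i hi, fun _ _ => rfl⟩

theorem SS.app {b : ℕ} {f : BFun} (hf : B[b]? = some f) {h : Fin f.1 → (ℕ → Bool) → Bool}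
    (hh : ∀ i, SS B k (h i)) : SS B k fun v => f.2 fun i => h i v := by
  choose g h1 h2 using hh
  exact ⟨_, Cl.app b f hf g h1, fun v hv => congrArg f.2 (funext fun i => h2 i v hv)⟩

theorem SS.const (hB : Hard B) (hk : 0 < k) (c : Bool) : SS B k fun _ => c := by
  cases c with
  | false => exact (SS.var hk).congr fun v hv => hv
  | true =>
    obtain ⟨b, f, hf, h⟩ := hB.one
    refine (SS.app hf (h := fun _ v => v 0) fun _ => SS.var hk).congr fun v hv => ?_
    simp only [hv]
    exact h

theorem SS.not (hB : Hard B) (hk : 0 < k) {h : (ℕ → Bool) → Bool} (hh : SS B k h) :
    SS B k fun v => !h v := by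
  obtain ⟨b, f, hf, u, w, huw, h1, h2⟩ := hB.two
  refine (SS.app hf (h := fun t v => if u t = w t then u t else h v) fun t => ?_).congr
    fun v _ => ?_
  · by_cases htt : u t = w t
    · simp only [htt, if_true]
      exact SS.const hB hk _
    · simp only [htt, if_false]
      exact hh
  · have key : ∀ c : Bool, (f.2 fun t => if u t = w t then u t else c) = !c := by
      intro c
      cases c with
      | false =>
        have : (fun t => if u t = w t then u t else false) = u := by
          funext t
          by_cases htt : u t = w t
          · rw [if_pos htt]
          · rw [if_neg htt]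
            have := huw t
            revert this htt
            cases u t <;> cases w t <;> simp
        rw [this, h1]
        rfl
      | true =>
        have : (fun t => if u t = w t then u t else true) = w := by
          funext t
          by_cases htt : u t = w t
          · rw [if_pos htt, htt]
          · rw [if_neg htt]
            have := huw t
            revert this htt
            cases u t <;> cases w t <;> simp
        rw [this, h2]
        rfl
    exact key (h v)

theorem and_of_odd : ∀ a b c d : Bool, (a.xor b).xor (c.xor d) = true → ∃ α β γ : Bool,
    ∀ s t : Bool, ((if s.xor α then (if t.xor β then a else b) else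
      (if t.xor β then c else d)).xor γ) = (s && t) := by
  decide

theorem SS.xorc (hB : Hard B) (hk : 0 < k) {h : (ℕ → Bool) → Bool} (hh : SS B k h) (c : Bool) :
    SS B k fun v => (h v).xor c := by
  cases c with
  | false => exact hh.congr fun v _ => by simp
  | true => exact (SS.not hB hk hh).congr fun v _ => by simp

theorem SS.and (hB : Hard B) (hk : 0 < k) {h h' : (ℕ → Bool) → Bool} (hh : SS B k h)
    (hh' : SS B k h') : SS B k fun v => h v && h' v := by
  obtain ⟨b, f, hf, x, i, j, hij, hodd⟩ := hB.three
  -- the restriction of `f`
  set κ : Bool → Bool → Bool := fun s t => f.2 fun r => if r = i then s else if r = j then t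
    else x r with hκ
  have hκodd : ((κ true true).xor (κ true false)).xor ((κ false true).xor (κ false false)) =
      true := by
    have e : ∀ s t : Bool, κ ((x i).xor s) ((x j).xor t) =
        f.2 (if s then (if t then fl (fl x j) i else fl x i) else (if t then fl x j else x)) := by
      intro s t
      rw [hκ]
      dsimp only
      refine congrArg f.2 (funext fun r => ?_)
      by_cases hr : r = i
      · subst hr
        rw [if_pos rfl]
        cases s <;> cases t <;> simp [fl, Function.update_of_ne hij]
      · rw [if_neg hr]
        by_cases hr' : r = j
        · subst hr'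
          rw [if_pos rfl]
          cases s <;> cases t <;> simp [fl, Function.update_of_ne hr]
        · rw [if_neg hr']
          cases s <;> cases t <;> simp [fl, Function.update_of_ne hr, Function.update_of_ne hr']
    have e1 := e false false
    have e2 := e true false
    have e3 := e false true
    have e4 := e true true
    simp only [Bool.xor_false, Bool.xor_true, Bool.false_eq_true, if_false, if_true] at e1 e2 e3 e4
    rw [← e1, ← e2, ← e3, ← e4] at hodd
    revert hodd
    cases x i <;> cases x j <;> simp only [Bool.not_true, Bool.not_false] <;>
      cases κ true true <;> cases κ true false <;> cases κ false true <;>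
      cases κ false false <;> simp
  obtain ⟨α, β, γ, habc⟩ := and_of_odd _ _ _ _ hκodd
  have h1 := SS.xorc hB hk hh α
  have h2 := SS.xorc hB hk hh' β
  have h3 : SS B k fun v => κ ((h v).xor α) ((h' v).xor β) := by
    refine (SS.app hf (h := fun r v => if r = i then (h v).xor α else if r = j then
      (h' v).xor β else x r) fun r => ?_).congr fun v _ => rfl
    by_cases hr : r = i
    · simp only [hr, if_true]
      exact h1
    · by_cases hr' : r = j
      · have hji : j ≠ i := fun h => hij h.symm
        simp only [hr', if_neg hji, if_true]
        exact h2
      · simp only [hr, hr', if_false]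
        exact SS.const hB hk _
  refine (SS.xorc hB hk h3 γ).congr fun v _ => ?_
  have := habc (h v) (h' v)
  rw [← this]
  congr 1
  cases (h v).xor α <;> cases (h' v).xor β <;> rfl

/-- every function of the variables `1, ..., m` -/
theorem SS.all (hB : Hard B) (m : ℕ) : ∀ h : (ℕ → Bool) → Bool,
    (∀ v v' : ℕ → Bool, (∀ i, 1 ≤ i → i ≤ m → v i = v' i) → h v = h v') → m < k →
    SS B k h := by
  induction m with
  | zero =>
    intro h hdep hk
    refine (SS.const hB hk (h fun _ => false)).congr fun v _ => ?_
    exact hdep _ _ fun i h1 h2 => by omega
  | succ m ih =>
    intro h hdep hk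
    have hk0 : 0 < k := by omega
    have key : ∀ c : Bool, SS B k fun v => h (Function.update v (m + 1) c) := by
      intro c
      refine ih _ (fun v v' hv => hdep _ _ fun i h1 h2 => ?_) (by omega)
      by_cases hi : i = m + 1
      · subst hi
        simp
      · rw [Function.update_of_ne hi, Function.update_of_ne hi]
        exact hv i h1 (by omega)
    have hv := SS.var (B := B) (k := k) (i := m + 1) hk
    have h1 := SS.and hB hk0 hv (key true)
    have h2 := SS.and hB hk0 (SS.not hB hk0 hv) (key false)
    have h3 := SS.not hB hk0 (SS.and hB hk0 (SS.not hB hk0 h1) (SS.not hB hk0 h2))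
    refine h3.congr fun v _ => ?_
    have hu : Function.update v (m + 1) (v (m + 1)) = v := Function.update_eq_self _ _
    cases hvm : v (m + 1) with
    | true =>
      rw [hvm] at hu
      rw [hu]
      simp
    | false =>
      rw [hvm] at hu
      rw [hu]
      simp

/-- the identity is given by a formula with at least one application -/
theorem exists_id (hB : Hard B) : ∃ (b : ℕ) (f : BFun), B[b]? = some f ∧ ∃ g : Fin f.1 → (ℕ → Bool) → Bool,
    (∀ i, Cl B 1 (g i)) ∧ ∀ v, (f.2 fun i => g i v) = v 0 := by
  have v0 : Cl B 1 fun v => v 0 := Cl.var 0 Nat.one_pos
  by_cases h1 : ∃ (b : ℕ) (f : BFun), B[b]? = some f ∧ f.2 (fun _ => false) = false ∧ f.2 (fun _ => true) = true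
  · obtain ⟨b, f, hf, h2, h3⟩ := h1
    refine ⟨b, f, hf, fun _ v => v 0, fun _ => v0, fun v => ?_⟩
    change (f.2 fun _ => v 0) = v 0
    cases v 0
    · exact h2
    · exact h3
  · by_cases h4 : ∃ (b : ℕ) (f : BFun), B[b]? = some f ∧ f.2 (fun _ => false) = true ∧
        f.2 (fun _ => true) = false
    · obtain ⟨b, f, hf, h2, h3⟩ := h4
      refine ⟨b, f, hf, fun _ v => f.2 fun _ => v 0, fun _ => Cl.app b f hf _ fun _ => v0,
        fun v => ?_⟩
      change (f.2 fun _ => f.2 fun _ => v 0) = v 0
      cases v 0
      · rw [h2, h3]
      · rw [h3, h2]
    · have hdiag : ∀ (b : ℕ) (f : BFun), B[b]? = some f → f.2 (fun _ => false) = f.2 (fun _ => true) := by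
        intro b f hf
        push Not at h1 h4
        have e1 := h1 b f hf
        have e2 := h4 b f hf
        revert e1 e2
        cases f.2 (fun _ => false) <;> cases f.2 (fun _ => true) <;> simp
      obtain ⟨b1, f1, hf1, hone⟩ := hB.one
      have hone' := hdiag b1 f1 hf1
      rw [hone] at hone'
      obtain ⟨b, f, hf, u, w, huw, hu, hw⟩ := hB.two
      have hd := hdiag b f hf
      -- the constant one
      have c1 : Cl B 1 fun v => f1.2 fun _ => v 0 := Cl.app b1 f1 hf1 _ fun _ => v0
      have c1v : ∀ v : ℕ → Bool, (f1.2 fun _ => v 0) = true := by
        intro v
        cases v 0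
        · exact hone
        · exact hone'.symm
      cases hft : f.2 (fun _ => true) with
      | true =>
        refine ⟨b, f, hf, fun t v => if u t = w t then (if u t then (f1.2 fun _ => v 0) else v 0)
          else (f1.2 fun _ => v 0), fun t => ?_, fun v => ?_⟩
        · by_cases htt : u t = w t
          · simp only [htt, if_true]
            cases w t
            · exact v0
            · exact c1
          · simp only [htt, if_false]
            exact c1
        · simp only [c1v]
          cases hv : v 0
          · have : (fun t => if u t = w t then (if u t then true else false) else true) = w := by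
              funext t
              by_cases htt : u t = w t
              · rw [if_pos htt, htt]
                cases w t <;> rfl
              · rw [if_neg htt]
                have := huw t
                revert this htt
                cases u t <;> cases w t <;> simp
            rw [this, hw]
          · have : (fun t => if u t = w t then (if u t then true else true) else true) =
                fun _ : Fin f.1 => true := by
              funext t
              split_ifs <;> rfl
            rw [this, hft]
      | false =>
        have hff : f.2 (fun _ => false) = false := hd.trans hft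
        have c0 : Cl B 1 fun v => f.2 fun _ => v 0 := Cl.app b f hf _ fun _ => v0
        have c0v : ∀ v : ℕ → Bool, (f.2 fun _ => v 0) = false := by
          intro v
          cases v 0
          · exact hff
          · exact hft
        have key : ∀ c : Bool, (f.2 fun t => if u t = w t then (if u t then true else false)
            else c) = !c := by
          intro c
          cases c with
          | false =>
            have : (fun t => if u t = w t then (if u t then true else false) else false) = u := by
              funext t
              by_cases htt : u t = w t
              · rw [if_pos htt]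
                cases u t <;> rfl
              · rw [if_neg htt]
                have := huw t
                revert this htt
                cases u t <;> cases w t <;> simp
            rw [this, hu]
            rfl
          | true =>
            have : (fun t => if u t = w t then (if u t then true else false) else true) = w := by
              funext t
              by_cases htt : u t = w t
              · rw [if_pos htt, htt]
                cases w t <;> rfl
              · rw [if_neg htt]
                have := huw t
                revert this htt
                cases u t <;> cases w t <;> simp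
            rw [this, hw]
            rfl
        have hN : ∀ {h : (ℕ → Bool) → Bool}, Cl B 1 h → ∀ t, Cl B 1 fun v =>
            if u t = w t then (if u t then (f1.2 fun _ => v 0) else (f.2 fun _ => v 0))
            else h v := by
          intro h hh t
          by_cases htt : u t = w t
          · simp only [htt, if_true]
            cases w t
            · exact c0
            · exact c1
          · simp only [htt, if_false]
            exact hh
        refine ⟨b, f, hf, fun t v => if u t = w t then (if u t then (f1.2 fun _ => v 0) else
          (f.2 fun _ => v 0)) else (f.2 fun s => if u s = w s then (if u s then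
          (f1.2 fun _ => v 0) else (f.2 fun _ => v 0)) else v 0), ?_, fun v => ?_⟩
        · exact hN (Cl.app b f hf _ (hN v0))
        · simp only [c1v, c0v, key, Bool.not_not]

end

end Pool.Agent.MPa0a715
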