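import Pool.Agent.Lib.PolyTime.Defs

/-!
# Circuit-FLIP over a finite basis of Boolean functions
-/

namespace Pool.Agent.MPa0a715

open Pool.Agent.PolyTime

/-- A Boolean function of some arity. -/
abbrev BFun := (a : ℕ) × ((Fin a → Bool) → Bool)

/-- Circuits over a basis: the number `n` of inputs, the list of gates and the output wires.
A gate is given by the position of its function in the basis and the list of wires it reads.
Wires `0, ..., n - 1` are the inputs and wire `n + k` is the gate in position `k`. -/
structure BCircuit where
  n : ℕ
  gates : List (ℕ × List ℕ)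
  outs : List ℕ

/-- The value of the function in position `b` of the basis on a list of bits. -/
def appB (B : List BFun) (b : ℕ) (l : List Bool) : Bool :=
  match B[b]? with
  | none => false
  | some f => f.2 fun i => l.getD i false

/-- Well-formed circuits over the basis `B`. -/
def BCircuit.Valid (B : List BFun) (C : BCircuit) : Prop :=
  (∀ (k : ℕ) (h : k < C.gates.length), (∃ f, B[C.gates[k].1]? = some f ∧
    C.gates[k].2.length = f.1) ∧ ∀ r ∈ C.gates[k].2, r < C.n + k) ∧
  ∀ o ∈ C.outs, C.n ≤ o ∧ o < C.n + C.gates.length

/-- The values of all wires on the input `x`. -/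
def BCircuit.wires (B : List BFun) (C : BCircuit) (x : List Bool) : List Bool :=
  C.gates.foldl (fun v g => v ++ [appB B g.1 (g.2.map fun r => v.getD r false)]) x

/-- The cost `∑ y_j 2 ^ j` of the input `x`, where `(y_1, ..., y_m)` is the output on `x`. -/
def BCircuit.cost (B : List BFun) (C : BCircuit) (x : List Bool) : ℕ :=
  ∑ j ∈ Finset.range C.outs.length,
    if (C.wires B x).getD (C.outs.getD j 0) false then 2 ^ (j + 1) else 0

/-- `x` is an input of the circuit and no flip of a single bit gives a smaller cost. -/
def BCircuit.IsLocalMin (B : List BFun) (C : BCircuit) (x : List Bool) : Prop :=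
  x.length = C.n ∧ ∀ i < C.n, C.cost B x ≤ C.cost B (x.modify i (fun b => !b))

/-- Encoding of circuits: the number of inputs in unary, the gates and the outputs. -/
instance : Enc BCircuit := ⟨fun C => enc (List.replicate C.n (), C.gates, C.outs)⟩

/-- Circuit-FLIP over the basis `B` has a polynomial-time solver. -/
def BHasSolver (B : List BFun) : Prop :=
  ∃ f : BCircuit → List Bool, IsPolyTime enc enc f ∧
    ∀ C : BCircuit, C.Valid B → C.IsLocalMin B (f C)

/-- Circuit-FLIP over `B` reduces to Circuit-FLIP over `B'` by a reduction in the sense of the
class PLS: a circuit `C` over `B` is mapped to a circuit `g C` over `B'`, and `h` maps every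
local minimum of `g C` to a local minimum of `C`, both in polynomial time. -/
def BReduces (B B' : List BFun) : Prop :=
  ∃ (g : BCircuit → BCircuit) (h : BCircuit × List Bool → List Bool),
    IsPolyTime enc enc g ∧ IsPolyTime enc enc h ∧
    ∀ C : BCircuit, C.Valid B → (g C).Valid B' ∧
      ∀ y, (g C).IsLocalMin B' y → C.IsLocalMin B (h (C, y))

/-- The basis of the original problem. -/
def andOrNot : List BFun :=
  [⟨2, fun x => x 0 && x 1⟩, ⟨2, fun x => x 0 || x 1⟩, ⟨1, fun x => !x 0⟩]

/-- All functions of the basis map the zero vector to zero. -/
def ZeroPreserving (B : List BFun) : Prop := ∀ f ∈ B, f.2 (fun _ => false) = false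

/-- All functions of the basis are monotone. -/
def MonotoneBasis (B : List BFun) : Prop := ∀ f ∈ B, Monotone f.2

/-- All functions of the basis are affine over the field with two elements. -/
def AffineBasis (B : List BFun) : Prop := ∀ f ∈ B, ∀ x y z : Fin f.1 → Bool,
  f.2 (fun i => (x i).xor ((y i).xor (z i))) = (f.2 x).xor ((f.2 y).xor (f.2 z))

end Pool.Agent.MPa0a715
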