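import Pool.Agent.Lib.MP_a0a715_lc.Basis.Reduce
import Pool.Agent.Lib.MP_a0a715_lc.Easy

/-!
# The easy bases
-/

namespace Pool.Agent.MPa0a715

open Pool.Agent.PolyTime

section
variable {B : List BFun}

theorem out_getD' (C : BCircuit) (x : List Bool) {r : ℕ} (hr : r < C.outs.length) :
    (C.out B x).getD r false = C.env B x (C.outs.getD r 0) := by
  unfold BCircuit.out
  rw [List.getD_eq_getElem _ _ (by rw [List.length_map]; exact hr), List.getElem_map,
    List.getD_eq_getElem _ _ hr]

theorem length_out' (C : BCircuit) (x : List Bool) : (C.out B x).length = C.outs.length := by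
  unfold BCircuit.out
  rw [List.length_map]

theorem map_getD (l : List ℕ) (x : List Bool) (i : ℕ) :
    (l.map fun r => x.getD r false).getD i false =
      if i < l.length then x.getD (l.getD i 0) false else false := by
  split_ifs with h
  · rw [List.getD_eq_getElem _ _ (by rw [List.length_map]; exact h), List.getElem_map,
      List.getD_eq_getElem _ _ h]
  · rw [List.getD_eq_default _ _ (by rw [List.length_map]; omega)]

/-! ### bases preserving zero -/

theorem brun_zero (hB : ZeroPreserving B) (gs : List (ℕ × List ℕ)) (x : List Bool)
    (hx : ∀ i, x.getD i false = false) : ∀ i, (brun B gs x).getD i false = false := by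
  induction gs generalizing x with
  | nil => exact hx
  | cons g gs ih =>
    rw [brun_cons]
    apply ih
    intro i
    have h0 : appB B g.1 (g.2.map fun r => x.getD r false) = false := by
      unfold appB
      cases hb : B[g.1]? with
      | none => rfl
      | some f =>
        dsimp only
        have : (fun i : Fin f.1 => (g.2.map fun r => x.getD r false).getD i false) =
            fun _ => false := by
          funext i
          rw [map_getD]
          split_ifs
          · exact hx _
          · rfl
        rw [this]
        exact hB f (List.mem_of_getElem? hb)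
    rw [h0]
    by_cases hi : i < x.length
    · rw [List.getD_append _ _ _ _ hi]
      exact hx i
    · rw [List.getD_append_right _ _ _ _ (by omega)]
      cases i - x.length with
      | zero => rfl
      | succ k => simp

theorem zeros_min_of_zero (hB : ZeroPreserving B) (C : BCircuit) :
    C.IsLocalMin B (zeros C.n) := by
  refine ⟨length_zeros _, fun i _ => ?_⟩
  rw [BCircuit.cost_eq, val_eq_zero]
  · omega
  · intro r hr
    rw [length_out'] at hr
    rw [out_getD' _ _ hr]
    exact brun_zero hB C.gates _ (zeros_getD C.n) _

/-! ### monotone bases -/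

theorem brun_mono (hB : MonotoneBasis B) (gs : List (ℕ × List ℕ)) {x y : List Bool}
    (h : LE' x y) : LE' (brun B gs x) (brun B gs y) := by
  induction gs generalizing x y with
  | nil => exact h
  | cons g gs ih =>
    rw [brun_cons, brun_cons]
    refine ih (h.append ?_)
    unfold appB
    cases hb : B[g.1]? with
    | none => exact fun h => h
    | some f =>
      dsimp only
      have hle : (fun i : Fin f.1 => (g.2.map fun r => x.getD r false).getD i false) ≤
          fun i : Fin f.1 => (g.2.map fun r => y.getD r false).getD i false := by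
        intro i
        dsimp only
        rw [map_getD, map_getD]
        split_ifs
        · have := h.2 (g.2.getD i 0)
          revert this
          cases x.getD (g.2.getD i 0) false <;> cases y.getD (g.2.getD i 0) false <;> simp
        · exact le_rfl
      have := hB f (List.mem_of_getElem? hb) hle
      revert this
      cases f.2 (fun i : Fin f.1 => (g.2.map fun r => x.getD r false).getD i false) <;>
        cases f.2 (fun i : Fin f.1 => (g.2.map fun r => y.getD r false).getD i false) <;> simp

theorem zeros_min_of_mono (hB : MonotoneBasis B) (C : BCircuit) :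
    C.IsLocalMin B (zeros C.n) := by
  refine ⟨length_zeros _, fun i _ => ?_⟩
  rw [BCircuit.cost_eq, BCircuit.cost_eq]
  refine Nat.mul_le_mul_left 2 (val_mono (by rw [length_out', length_out']) fun r hr h1 => ?_)
  rw [length_out'] at hr
  rw [out_getD' _ _ hr] at h1 ⊢
  have hle : LE' (zeros C.n) ((zeros C.n).modify i fun b => !b) := by
    refine ⟨by simp, fun k hk => ?_⟩
    rw [zeros_getD] at hk
    exact absurd hk Bool.false_ne_true
  exact (brun_mono hB C.gates hle).2 _ h1

/-! ### affine bases -/

/-- `t` is the sum of `x`, `y` and `z` -/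
def Sum3 (x y z t : List Bool) : Prop :=
  (x.length = t.length ∧ y.length = t.length ∧ z.length = t.length) ∧
    ∀ i, t.getD i false = (x.getD i false).xor ((y.getD i false).xor (z.getD i false))

theorem Sum3.append {x y z t : List Bool} {a b c d : Bool} (h : Sum3 x y z t)
    (hd : d = a.xor (b.xor c)) : Sum3 (x ++ [a]) (y ++ [b]) (z ++ [c]) (t ++ [d]) := by
  obtain ⟨⟨h1, h2, h3⟩, h4⟩ := h
  refine ⟨⟨by simp [h1], by simp [h2], by simp [h3]⟩, fun i => ?_⟩
  by_cases hi : i < t.length
  · rw [List.getD_append _ _ _ _ hi, List.getD_append _ _ _ _ (by omega),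
      List.getD_append _ _ _ _ (by omega), List.getD_append _ _ _ _ (by omega)]
    exact h4 i
  · rw [List.getD_append_right _ _ _ _ (by omega), List.getD_append_right _ _ _ _ (by omega),
      List.getD_append_right _ _ _ _ (by omega), List.getD_append_right _ _ _ _ (by omega),
      h1, h2, h3]
    cases i - t.length with
    | zero => exact hd
    | succ k => simp

theorem brun_affine (hB : AffineBasis B) (gs : List (ℕ × List ℕ)) {x y z t : List Bool}
    (h : Sum3 x y z t) : Sum3 (brun B gs x) (brun B gs y) (brun B gs z) (brun B gs t) := by
  induction gs generalizing x y z t with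
  | nil => exact h
  | cons g gs ih =>
    rw [brun_cons, brun_cons, brun_cons, brun_cons]
    refine ih (h.append ?_)
    unfold appB
    cases hb : B[g.1]? with
    | none => rfl
    | some f =>
      dsimp only
      rw [← hB f (List.mem_of_getElem? hb)]
      refine congrArg f.2 (funext fun i => ?_)
      rw [map_getD, map_getD, map_getD, map_getD]
      split_ifs
      · exact h.2 _
      · rfl

/-- the change of output bit `j` caused by flipping input bit `i` -/
def dl (B : List BFun) (C : BCircuit) (i j : ℕ) : Bool :=
  ((C.out B (flip (zeros C.n) i)).getD j false).xor ((C.out B (zeros C.n)).getD j false)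

theorem out_flip (hB : AffineBasis B) (C : BCircuit) {x : List Bool} (hx : x.length = C.n)
    {i j : ℕ} (hi : i < C.n) (hj : j < C.outs.length) :
    (C.out B (flip x i)).getD j false = ((C.out B x).getD j false).xor (dl B C i j) := by
  have h3 : Sum3 x (flip (zeros C.n) i) (zeros C.n) (flip x i) := by
    refine ⟨⟨by rw [length_flip], by rw [length_flip, length_flip, length_zeros, hx], by
      rw [length_flip, length_zeros, hx]⟩, fun r => ?_⟩
    by_cases hr : r < C.n
    · rw [getD_flip _ _ _ (by omega), getD_flip _ _ _ (by rw [length_zeros]; exact hr),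
        zeros_getD]
      split_ifs <;> cases x.getD r false <;> rfl
    · rw [List.getD_eq_default _ _ (by rw [length_flip]; omega),
        List.getD_eq_default _ _ (by omega),
        List.getD_eq_default _ _ (by rw [length_flip, length_zeros]; omega), zeros_getD]
      rfl
  have := (brun_affine hB C.gates h3).2 (C.outs.getD j 0)
  unfold dl
  rw [out_getD' _ _ hj, out_getD' _ _ hj, out_getD' _ _ hj, out_getD' _ _ hj]
  exact this

/-- bit `j` is the highest output bit changed by flipping input bit `i` -/
def isTop (B : List BFun) (C : BCircuit) (j i : ℕ) : Bool :=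
  dl B C i j && (List.range C.outs.length).all fun s => decide (s ≤ j) || !dl B C i s

/-- one step of the greedy algorithm -/
def gstep (B : List BFun) (C : BCircuit) (x : List Bool) (j : ℕ) : List Bool :=
  match (List.range C.n).find? (fun i => isTop B C j i && (C.out B x).getD j false) with
  | none => x
  | some i => flip x i

/-- the greedy algorithm -/
def greedy (B : List BFun) (C : BCircuit) : List Bool :=
  (List.range C.outs.length).reverse.foldl (gstep B C) (zeros C.n)

/-- bits `≥ j` cannot be improved -/
def Good (B : List BFun) (C : BCircuit) (j : ℕ) (x : List Bool) : Prop :=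
  x.length = C.n ∧ ∀ s, j ≤ s → s < C.outs.length → ∀ i < C.n, isTop B C s i = true →
    (C.out B x).getD s false = false

theorem gstep_good (hB : AffineBasis B) (C : BCircuit) {x : List Bool} {j : ℕ}
    (hj : j < C.outs.length) (h : Good B C (j + 1) x) : Good B C j (gstep B C x j) := by
  obtain ⟨hx, hg⟩ := h
  unfold gstep
  cases hf : (List.range C.n).find? (fun i => isTop B C j i && (C.out B x).getD j false) with
  | none =>
    refine ⟨hx, fun s hs hs' i hi ht => ?_⟩
    rcases Nat.lt_or_eq_of_le hs with h1 | rfl
    · exact hg s h1 hs' i hi ht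
    · rw [List.find?_eq_none] at hf
      have := hf i (List.mem_range.2 hi)
      rw [ht, Bool.true_and] at this
      simpa using this
  | some k =>
    have h1 := List.find?_some hf
    have hk := List.mem_range.1 (List.mem_of_find?_eq_some hf)
    rw [Bool.and_eq_true] at h1
    obtain ⟨h2, h3⟩ := h1
    unfold isTop at h2
    rw [Bool.and_eq_true, List.all_eq_true] at h2
    refine ⟨by rw [length_flip, hx], fun s hs hs' i hi ht => ?_⟩
    rw [out_flip hB C hx hk hs']
    rcases Nat.lt_or_eq_of_le hs with h4 | rfl
    · have h5 := h2.2 s (List.mem_range.2 hs')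
      rw [Bool.or_eq_true, decide_eq_true_eq] at h5
      have h6 : dl B C k s = false := by
        rcases h5 with h5 | h5
        · omega
        · simpa using h5
      rw [h6, hg s h4 hs' i hi ht]
      rfl
    · rw [h2.1, h3]
      rfl

theorem fold_good (hB : AffineBasis B) (C : BCircuit) (j : ℕ) (hj : j ≤ C.outs.length)
    {x : List Bool} (h : Good B C j x) :
    Good B C 0 ((List.range j).reverse.foldl (gstep B C) x) := by
  induction j generalizing x with
  | zero => exact h
  | succ j ih =>
    rw [List.range_succ, List.reverse_append, List.reverse_singleton, List.singleton_append,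
      List.foldl_cons]
    exact ih (by omega) (gstep_good hB C (by omega) h)

theorem greedy_min (hB : AffineBasis B) (C : BCircuit) : C.IsLocalMin B (greedy B C) := by
  have h := fold_good hB C C.outs.length le_rfl (x := zeros C.n)
    ⟨length_zeros _, fun s h1 h2 => absurd h1 (by omega)⟩
  change Good B C 0 (greedy B C) at h
  generalize greedy B C = x at h
  obtain ⟨hx, hg⟩ := h
  refine ⟨hx, fun i hi => ?_⟩
  rw [BCircuit.cost_eq, BCircuit.cost_eq]
  refine Nat.mul_le_mul_left 2 ?_
  change val (C.out B x) ≤ val (C.out B (flip x i))
  by_cases hex : ∃ s < C.outs.length, dl B C i s = true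
  · -- the highest changed bit
    have hfin : ∃ s, s < C.outs.length ∧ dl B C i s = true ∧
        ∀ r, s < r → r < C.outs.length → dl B C i r = false := by
      classical
      obtain ⟨s0, hs0, hd0⟩ := hex
      set F := (Finset.range C.outs.length).filter fun s => dl B C i s = true with hF
      have hne : F.Nonempty := ⟨s0, Finset.mem_filter.2 ⟨Finset.mem_range.2 hs0, hd0⟩⟩
      have hmax := Finset.mem_filter.1 (Finset.max'_mem F hne)
      refine ⟨F.max' hne, Finset.mem_range.1 hmax.1, hmax.2, fun r hr hr' => ?_⟩
      rw [← Bool.not_eq_true]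
      intro hd
      have := Finset.le_max' F r (Finset.mem_filter.2 ⟨Finset.mem_range.2 hr', hd⟩)
      omega
    obtain ⟨s, hs, hd, hr⟩ := hfin
    have htop : isTop B C s i = true := by
      unfold isTop
      rw [hd, Bool.true_and, List.all_eq_true]
      intro r hr'
      rw [List.mem_range] at hr'
      rw [Bool.or_eq_true, decide_eq_true_eq]
      by_cases h1 : r ≤ s
      · exact Or.inl h1
      · right
        rw [hr r (by omega) hr']
        rfl
    have h0 := hg s (Nat.zero_le _) hs i hi htop
    refine Nat.le_of_lt ((val_lt_iff _ _ (by rw [length_out', length_out'])).2 ?_)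
    refine ⟨s, by rw [length_out']; exact hs, h0, ?_, ?_⟩
    · rw [out_flip hB C hx hi hs, h0, hd]
      rfl
    · intro r hr' hsr
      rw [length_out'] at hr'
      rw [out_flip hB C hx hi hr', hr r hsr hr', Bool.xor_false]
  · push Not at hex
    have : C.out B (flip x i) = C.out B x := by
      refine ext_getD (by rw [length_out', length_out']) fun r hr => ?_
      rw [length_out'] at hr
      rw [out_flip hB C hx hi hr]
      have h0 : dl B C i r = false := by
        cases h1 : dl B C i r with
        | false => rfl
        | true => exact absurd h1 (hex r hr)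
      rw [h0, Bool.xor_false]
    rw [this]

/-! ### polynomial time -/

variable {α β γ : Type} [Enc α] [Enc β] [Enc γ]

theorem ptime_appB (B : List BFun) {b : α → ℕ} {l : α → List Bool} (hb : PTime b)
    (hl : PTime l) : PTime (fun a => appB B (b a) (l a)) := by
  induction B generalizing b with
  | nil => exact (PTime.const false).of_eq fun a => by simp [appB]
  | cons f B ih =>
    have h1 : PTime (fun a => f.2 fun i => (l a).getD i false) :=
      (PTime.of_finite f.2).comp (PTime.mkFn (f := fun (i : Fin f.1) (a : α) =>
        (l a).getD i false) fun i => PTime.listGetD hl (PTime.const (i : ℕ)) (PTime.const false))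
    refine (ptime_ite_eq hb (b := 0) h1 (ih (hb.sub (PTime.const 1)))).of_eq fun a => ?_
    split_ifs with h
    · rw [h]
      simp [appB]
    · obtain ⟨k, hk⟩ : ∃ k, b a = k + 1 := ⟨b a - 1, by omega⟩
      rw [hk]
      simp [appB]

theorem ptime_bparts {f : α → BCircuit} (hf : PTime f) :
    PTime (fun a => (List.replicate (f a).n (), (f a).gates, (f a).outs)) :=
  hf.of_enc_eq (fun x => x) (fun _ => rfl) (fun _ => rfl)

theorem pu_bn {f : α → BCircuit} (hf : PTime f) : PU (fun a => (f a).n) :=
  (ptime_bparts hf).fst'

theorem ptime_bgates {f : α → BCircuit} (hf : PTime f) : PTime (fun a => (f a).gates) :=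
  (ptime_bparts hf).snd'.fst'

theorem ptime_bouts {f : α → BCircuit} (hf : PTime f) : PTime (fun a => (f a).outs) :=
  (ptime_bparts hf).snd'.snd'

theorem ptime_bcircuit {n : α → ℕ} {g : α → List (ℕ × List ℕ)} {o : α → List ℕ} (hn : PU n)
    (hg : PTime g) (ho : PTime o) : PTime (fun a => BCircuit.mk (n a) (g a) (o a)) :=
  (PTime.pair hn (hg.pair ho)).of_enc_eq (fun x => x) (fun _ => rfl) (fun _ => rfl)

theorem ptime_brun (B : List BFun) {g : α → List (ℕ × List ℕ)} {x : α → List Bool}
    (hg : PTime g) (hx : PTime x) : PTime (fun a => brun B (g a) (x a)) := by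
  obtain ⟨F, hF, hFm, hFs⟩ := hg.size_le
  obtain ⟨F', hF', hFm', hFs'⟩ := hx.size_le
  have hstep : PTime (fun p : α × (List Bool × (ℕ × List ℕ)) =>
      p.2.1 ++ [appB B p.2.2.1 (p.2.2.2.map fun r => p.2.1.getD r false)]) := by
    have e1 : PTime (fun p : α × (List Bool × (ℕ × List ℕ)) => p.2.1) := PTime.fst' PTime.snd
    have e2 : PTime (fun p : α × (List Bool × (ℕ × List ℕ)) => p.2.2) := PTime.snd' PTime.snd
    have e3 : PTime (fun p : α × (List Bool × (ℕ × List ℕ)) =>
        p.2.2.2.map fun r => p.2.1.getD r false) :=
      PTime.map (g := fun (p : α × (List Bool × (ℕ × List ℕ))) (r : ℕ) => p.2.1.getD r false)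
        e2.snd' (PTime.listGetD (e1.comp PTime.fst) PTime.snd (PTime.const false))
    exact e1.append ((ptime_appB B e2.fst' e3).cons (PTime.const []))
  refine PTime.foldl (h := fun _ v g => v ++ [appB B g.1 (g.2.map fun r => v.getD r false)])
    hg hx hstep (B := fun n => (F' n + F n) * 4 + 1) ?_ ?_
  · exact ((hF'.add hF).mul (PBd.const 4)).add (PBd.const 1)
  · intro a l₁ l₂ hl
    change size (enc (brun B l₁ (x a))) ≤ _
    refine (size_list_le _ 3 fun b _ => size_bool b).trans ?_
    rw [length_brun]
    have h1 : l₁.length ≤ (g a).length := by rw [hl]; simp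
    have h2 := length_le_size (g a)
    have h3 := length_le_size (x a)
    have h4 := hFs a
    have h5 := hFs' a
    have h6 : (x a).length + l₁.length ≤ F' (size (enc a)) + F (size (enc a)) := by omega
    have := Nat.mul_le_mul_right 4 h6
    omega

theorem ptime_bout (B : List BFun) {C : α → BCircuit} {x : α → List Bool} (hC : PTime C)
    (hx : PTime x) : PTime (fun a => (C a).out B (x a)) := by
  have hr := ptime_brun B (ptime_bgates hC) hx
  refine PTime.map (g := fun (a : α) (o : ℕ) => (brun B (C a).gates (x a)).getD o false)
    (ptime_bouts hC) ?_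
  exact PTime.listGetD (hr.comp PTime.fst) PTime.snd (PTime.const false)

theorem ptime_dl (B : List BFun) {C : α → BCircuit} {i j : α → ℕ} (hC : PTime C)
    (hi : PTime i) (hj : PTime j) : PTime (fun a => dl B (C a) (i a) (j a)) := by
  have hz : PTime (fun a => zeros (C a).n) := ptime_zeros (pu_bn hC)
  exact PTime.xor (PTime.listGetD (ptime_bout B hC (ptime_flip hz hi)) hj (PTime.const false))
    (PTime.listGetD (ptime_bout B hC hz) hj (PTime.const false))

theorem ptime_isTop (B : List BFun) {C : α → BCircuit} {i j : α → ℕ} (hC : PTime C)
    (hi : PTime i) (hj : PTime j) : PTime (fun a => isTop B (C a) (j a) (i a)) := by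
  have hr : PTime (fun a => List.range (C a).outs.length) :=
    (PU.ofLength (ptime_bouts hC)).range
  have hs : PTime₂ (fun (a : α) (s : ℕ) => decide (s ≤ j a) || !dl B (C a) (i a) s) :=
    (PTime.le PTime.snd (hj.comp PTime.fst)).or
      (ptime_dl B (hC.comp PTime.fst) (hi.comp PTime.fst) PTime.snd).not
  exact (ptime_dl B hC hi hj).and (PTime.all hr hs)

theorem ptime_gstep (B : List BFun) {C : α → BCircuit} {x : α → List Bool} {j : α → ℕ}
    (hC : PTime C) (hx : PTime x) (hj : PTime j) :
    PTime (fun a => gstep B (C a) (x a) (j a)) := by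
  have hp : PTime₂ (fun (a : α) (i : ℕ) =>
      isTop B (C a) (j a) i && ((C a).out B (x a)).getD (j a) false) :=
    (ptime_isTop B (hC.comp PTime.fst) PTime.snd (hj.comp PTime.fst)).and
      ((PTime.listGetD (ptime_bout B hC hx) hj (PTime.const false)).comp PTime.fst)
  have hf : PTime (fun p : α × ℕ => flip (x p.1) p.2) :=
    ptime_flip (hx.comp PTime.fst) PTime.snd
  refine (PTime.option_cases (PTime.find? (pu_bn hC).range hp) hx hf).of_eq fun a => ?_
  unfold gstep
  cases (List.range (C a).n).find? (fun i =>
    isTop B (C a) (j a) i && ((C a).out B (x a)).getD (j a) false) <;> rfl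

theorem length_gstep (C : BCircuit) (x : List Bool) (j : ℕ) :
    (gstep B C x j).length = x.length := by
  unfold gstep
  cases (List.range C.n).find? (fun i => isTop B C j i && (C.out B x).getD j false) with
  | none => rfl
  | some i => exact length_flip _ _

theorem ptime_greedy (B : List BFun) : PTime (greedy B) := by
  have hC : PTime (fun C : BCircuit => C) := PTime.id
  have hz : PTime (fun C : BCircuit => zeros C.n) := ptime_zeros (pu_bn hC)
  have hr : PTime (fun C : BCircuit => (List.range C.outs.length).reverse) :=
    PTime.reverse (PU.ofLength (ptime_bouts hC)).range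
  obtain ⟨F, hF, hFm, hFs⟩ := hz.size_le
  refine PTime.foldl (h := fun C x j => gstep B C x j) hr hz
    (ptime_gstep B PTime.fst (PTime.fst' PTime.snd) (PTime.snd' PTime.snd))
    (B := fun n => F n * 4 + 1) ((hF.mul (PBd.const 4)).add (PBd.const 1)) ?_
  intro C l₁ l₂ _
  have hlen : ∀ l : List ℕ, (l.foldl (gstep B C) (zeros C.n)).length = (zeros C.n).length := by
    intro l
    induction l using List.reverseRecOn with
    | nil => rfl
    | append_singleton l j ih =>
      rw [List.foldl_append, List.foldl_cons, List.foldl_nil, length_gstep, ih]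
  refine (size_list_le _ 3 fun b _ => size_bool b).trans ?_
  change (l₁.foldl (gstep B C) (zeros C.n)).length * (3 + 1) + 1 ≤ _
  rw [hlen]
  have h1 := length_le_size (zeros C.n)
  have h2 := hFs C
  have h3 : (zeros C.n).length ≤ F (size (enc C)) := by omega
  have := Nat.mul_le_mul_right 4 h3
  omega

end

end Pool.Agent.MPa0a715
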