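import Pool.Agent.Lib.MP_a0a715_lc.Basis.Complete
import Pool.Agent.Lib.MP_a0a715_lc.Correct

/-!
# The reduction between bases
-/

namespace Pool.Agent.MPa0a715

/-- programs over `B'` for the functions of `B` (variable `0` is zero) -/
structure Templates (B B' : List BFun) where
  K : ℕ
  T : List (List (ℕ × List ℕ))
  PT : List (ℕ × List ℕ)
  hK : 0 < K
  spec : ∀ (b : ℕ) (f : BFun), B[b]? = some f → ∃ P, T[b]? = some P ∧ PValid B' (f.1 + 1) P ∧
    P.length = K ∧ ∀ x : List Bool, x.length = f.1 + 1 → x.getD 0 false = false →
      (brun B' P x).getD (f.1 + 1 + (K - 1)) false = f.2 fun i => x.getD (i + 1) false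
  pt_valid : PValid B' 1 PT
  pt_pos : 0 < PT.length
  pt_spec : ∀ x : List Bool, x.length = 1 →
    (brun B' PT x).getD (1 + (PT.length - 1)) false = x.getD 0 false

theorem one_template {B' : List BFun} (hB : Hard B') (f : BFun) :
    ∃ K0, ∀ K, K0 ≤ K → ∃ P, PValid B' (f.1 + 1) P ∧ P.length = K ∧ 0 < K ∧
      ∀ x : List Bool, x.length = f.1 + 1 → x.getD 0 false = false →
      (brun B' P x).getD (f.1 + 1 + (K - 1)) false = f.2 fun i => x.getD (i + 1) false := by
  obtain ⟨g0, h1, h2⟩ := SS.all (k := f.1 + 1) hB f.1
    (fun v => f.2 fun i => v (i + 1)) (fun v v' h => congrArg f.2 (funext fun i =>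
      h (i + 1) (by omega) (by omega))) (Nat.lt_succ_self _)
  obtain ⟨b, fi, hfi, gi, hgi, hid⟩ := exists_id hB
  obtain ⟨K0, hK0⟩ := prog_len (B := B') (k := f.1 + 1) (Nat.succ_pos _) hfi
    (g := fun i v => gi i fun _ => g0 v) fun i => (hgi i).subst (s := fun _ => g0) fun _ _ => h1
  refine ⟨K0, fun K hK => ?_⟩
  obtain ⟨P, hP, hl, hpos, hv⟩ := hK0 K hK
  refine ⟨P, hP, hl, hpos, fun x hx hx0 => ?_⟩
  rw [hv x hx]
  have h3 := hid fun _ => g0 fun i => x.getD i false
  rw [h3]
  exact h2 _ hx0

theorem all_templates {B' : List BFun} (hB : Hard B') (B : List BFun) :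
    ∃ K0, ∀ K, K0 ≤ K → ∀ f ∈ B, ∃ P, PValid B' (f.1 + 1) P ∧ P.length = K ∧ 0 < K ∧
      ∀ x : List Bool, x.length = f.1 + 1 → x.getD 0 false = false →
      (brun B' P x).getD (f.1 + 1 + (K - 1)) false = f.2 fun i => x.getD (i + 1) false := by
  induction B with
  | nil => exact ⟨0, fun K _ f hf => absurd hf List.not_mem_nil⟩
  | cons f B ih =>
    obtain ⟨K1, h1⟩ := one_template hB f
    obtain ⟨K2, h2⟩ := ih
    refine ⟨max K1 K2, fun K hK g hg => ?_⟩
    rcases List.mem_cons.1 hg with rfl | hg'
    · exact h1 K ((le_max_left _ _).trans hK)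
    · exact h2 K ((le_max_right _ _).trans hK) g hg'

theorem exists_templates {B' : List BFun} (hB : Hard B') (B : List BFun) :
    Nonempty (Templates B B') := by
  obtain ⟨K0, h0⟩ := all_templates hB B
  have h1 := h0 (K0 + 1) (Nat.le_succ _)
  choose! F hF using h1
  obtain ⟨b, f, hf, g, hg, hid⟩ := exists_id hB
  obtain ⟨PT, hP1, hP2, hP3⟩ := prog_app hf fun i => exists_prog (hg i)
  refine ⟨{ K := K0 + 1, T := B.map F, PT := PT, hK := Nat.succ_pos _, spec := ?_,
            pt_valid := hP1, pt_pos := hP2, pt_spec := ?_ }⟩
  · intro b f hb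
    have hmem : f ∈ B := List.mem_of_getElem? hb
    obtain ⟨e1, e2, e3, e4⟩ := hF f hmem
    exact ⟨F f, by rw [List.getElem?_map, hb]; rfl, e1, e2, e4⟩
  · intro x hx
    rw [hP3 x hx]
    exact hid _

section
variable {B B' : List BFun} (τ : Templates B B')

/-- the wire of the new circuit for a wire of the old one -/
def mu (n K w : ℕ) : ℕ := if w < n then w else n + (w - n + 1) * K

/-- the wire of the new circuit for a wire of the program of the `k`-th gate -/
def rel (n K k : ℕ) (rs : List ℕ) (r : ℕ) : ℕ :=
  if r = 0 then n else if r ≤ rs.length then mu n K (rs.getD (r - 1) 0)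
  else n + k * K + (r - rs.length)

/-- the `t`-th gate of the new circuit -/
def bgate (n K : ℕ) (T : List (List (ℕ × List ℕ))) (G : List (ℕ × List ℕ)) (t : ℕ) :
    ℕ × List ℕ :=
  match G[t / K]? with
  | none => (0, [])
  | some g =>
    match T[g.1]? with
    | none => (0, [])
    | some P =>
      match P[t % K]? with
      | none => (0, [])
      | some q => (q.1, q.2.map (rel n K (t / K) g.2))

/-- the gates reproducing the last input -/
def lastGates (n L : ℕ) (PT : List (ℕ × List ℕ)) : List (ℕ × List ℕ) :=
  PT.map fun q => (q.1, q.2.map fun r => if r = 0 then n else n + L + r)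

/-- the new circuit -/
def bred (C : BCircuit) : BCircuit where
  n := C.n + 1
  gates := (List.range (C.gates.length * τ.K)).map (bgate C.n τ.K τ.T C.gates) ++
    lastGates C.n (C.gates.length * τ.K) τ.PT
  outs := C.outs.map (mu C.n τ.K) ++ [C.n + C.gates.length * τ.K + τ.PT.length]

variable {C : BCircuit}

theorem length_bred : (bred τ C).gates.length = C.gates.length * τ.K + τ.PT.length := by
  unfold bred lastGates
  simp

theorem bred_gate {k j : ℕ} (hk : k < C.gates.length) (hj : j < τ.K) {P : List (ℕ × List ℕ)}
    (hP : τ.T[C.gates[k].1]? = some P) (hl : P.length = τ.K)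
    (h : k * τ.K + j < (bred τ C).gates.length) :
    (bred τ C).gates[k * τ.K + j] = ((P[j]'(by rw [hl]; exact hj)).1,
      (P[j]'(by rw [hl]; exact hj)).2.map (rel C.n τ.K k C.gates[k].2)) := by
  have hlt : k * τ.K + j < C.gates.length * τ.K := by
    have : (k + 1) * τ.K ≤ C.gates.length * τ.K := Nat.mul_le_mul_right _ hk
    rw [Nat.add_mul, Nat.one_mul] at this
    omega
  have h1 : (k * τ.K + j) / τ.K = k := by
    rw [Nat.mul_comm, Nat.mul_add_div τ.hK, Nat.div_eq_of_lt hj, Nat.add_zero]
  have h2 : (k * τ.K + j) % τ.K = j := by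
    rw [Nat.mul_comm, Nat.mul_add_mod, Nat.mod_eq_of_lt hj]
  unfold bred
  dsimp only
  rw [List.getElem_append_left (by simpa using hlt), List.getElem_map, List.getElem_range]
  unfold bgate
  rw [h1, h2, List.getElem?_eq_getElem hk]
  dsimp only
  rw [hP]
  dsimp only
  rw [List.getElem?_eq_getElem (by rw [hl]; exact hj)]

theorem bred_last {j : ℕ} (hj : j < τ.PT.length)
    (h : C.gates.length * τ.K + j < (bred τ C).gates.length) :
    (bred τ C).gates[C.gates.length * τ.K + j] = (τ.PT[j].1,
      τ.PT[j].2.map fun r => if r = 0 then C.n else C.n + C.gates.length * τ.K + r) := by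
  unfold bred lastGates
  dsimp only
  rw [List.getElem_append_right (by simp), List.getElem_map]
  simp

theorem mu_lt {n K k w : ℕ} (hw : w < n + k) : mu n K w < n + 1 + k * K := by
  unfold mu
  split_ifs with h
  · omega
  · have : (w - n + 1) * K ≤ k * K := Nat.mul_le_mul_right _ (by omega)
    omega

theorem bred_valid (hC : C.Valid B) : (bred τ C).Valid B' := by
  constructor
  · intro t ht
    have ht' := ht
    rw [length_bred] at ht'
    by_cases hlt : t < C.gates.length * τ.K
    · have hk : t / τ.K < C.gates.length := by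
        rw [Nat.div_lt_iff_lt_mul τ.hK]
        exact hlt
      have hj := Nat.mod_lt t τ.hK
      have hsplit : t = t / τ.K * τ.K + t % τ.K := by
        rw [Nat.mul_comm]; exact (Nat.div_add_mod t τ.K).symm
      generalize t / τ.K = k at hk hsplit
      generalize t % τ.K = j at hj hsplit
      subst hsplit
      obtain ⟨⟨f, hf, hlen⟩, hrefs⟩ := hC.1 k hk
      obtain ⟨P, hP, hPv, hl, _⟩ := τ.spec _ f hf
      rw [bred_gate τ hk hj hP hl]
      obtain ⟨⟨f', hf', hlen'⟩, hrefs'⟩ := hPv j (by rw [hl]; exact hj)
      refine ⟨⟨f', hf', by rw [List.length_map]; exact hlen'⟩, ?_⟩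
      intro r hr
      obtain ⟨r', hr', rfl⟩ := List.mem_map.1 hr
      have h1 := hrefs' r' hr'
      change _ < C.n + 1 + _
      unfold rel
      split_ifs with h2 h3
      · omega
      · have h4 : C.gates[k].2.getD (r' - 1) 0 < C.n + k := by
          rw [List.getD_eq_getElem _ _ (by omega)]
          exact hrefs _ (List.getElem_mem _)
        have := mu_lt (K := τ.K) h4
        omega
      · omega
    · obtain ⟨j, rfl⟩ : ∃ j, t = C.gates.length * τ.K + j :=
        ⟨t - C.gates.length * τ.K, by omega⟩
      have hj : j < τ.PT.length := by omega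
      rw [bred_last τ hj]
      obtain ⟨⟨f', hf', hlen'⟩, hrefs'⟩ := τ.pt_valid j hj
      refine ⟨⟨f', hf', by rw [List.length_map]; exact hlen'⟩, ?_⟩
      intro r hr
      obtain ⟨r', hr', rfl⟩ := List.mem_map.1 hr
      have h1 := hrefs' r' hr'
      change _ < C.n + 1 + _
      split_ifs <;> omega
  · intro o ho
    rw [length_bred]
    have h0 := τ.pt_pos
    have ho' : o ∈ C.outs.map (mu C.n τ.K) ++ [C.n + C.gates.length * τ.K + τ.PT.length] := ho
    rw [List.mem_append, List.mem_singleton] at ho'
    change C.n + 1 ≤ o ∧ o < C.n + 1 + _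
    rcases ho' with ho' | rfl
    · obtain ⟨w, hw, rfl⟩ := List.mem_map.1 ho'
      obtain ⟨h1, h2⟩ := hC.2 w hw
      unfold mu
      rw [if_neg (by omega)]
      have h3 : (w - C.n + 1) * τ.K ≤ C.gates.length * τ.K := Nat.mul_le_mul_right _ (by omega)
      have h4 : 1 * 1 ≤ (w - C.n + 1) * τ.K := Nat.mul_le_mul (by omega) τ.hK
      omega
    · omega

theorem length_append_bit {x : List Bool} (hx : x.length = C.n) (z : Bool) :
    (x ++ [z]).length = (bred τ C).n := by
  rw [List.length_append, hx]
  rfl

theorem bred_env (hC : C.Valid B) {x : List Bool} (hx : x.length = C.n) (w : ℕ)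
    (hw : w < C.n + C.gates.length) :
    (bred τ C).env B' (x ++ [false]) (mu C.n τ.K w) = C.env B x w := by
  have hn : (bred τ C).n = C.n + 1 := rfl
  have hx' := length_append_bit τ hx false
  set W := (bred τ C).env B' (x ++ [false]) with hW
  induction w using Nat.strong_induction_on with
  | _ w ih =>
    by_cases hwn : w < C.n
    · unfold mu
      rw [if_pos hwn, hW, BCircuit.env_input _ (by omega), BCircuit.env_input _ (by omega),
        List.getD_append _ _ _ _ (by omega)]
    · obtain ⟨k, rfl⟩ : ∃ k, w = C.n + k := ⟨w - C.n, by omega⟩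
      have hk : k < C.gates.length := by omega
      obtain ⟨⟨f, hf, hlen⟩, hrefs⟩ := hC.1 k hk
      obtain ⟨P, hP, hPv, hl, hspec⟩ := τ.spec _ f hf
      have hWn : W C.n = false := by
        rw [hW, BCircuit.env_input _ (by omega), List.getD_append_right _ _ _ _ (by omega), hx]
        simp
      have hWgate : ∀ j < τ.K, ∀ h : j < P.length, W (C.n + 1 + (k * τ.K + j)) =
          appB B' P[j].1 ((P[j].2.map (rel C.n τ.K k C.gates[k].2)).map W) := by
        intro j hj h
        have hlt : k * τ.K + j < (bred τ C).gates.length := by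
          rw [length_bred]
          have : (k + 1) * τ.K ≤ C.gates.length * τ.K := Nat.mul_le_mul_right _ hk
          rw [Nat.add_mul, Nat.one_mul] at this
          omega
        have h1 := BCircuit.env_gate (bred_valid τ hC) hx' hlt
        rw [bred_gate τ hk hj hP hl] at h1
        exact h1
      have hxs : (false :: C.gates[k].2.map fun r => W (mu C.n τ.K r)).length = f.1 + 1 := by
        rw [List.length_cons, List.length_map, hlen]
      have hsim := simulate (W := W) (σ := rel C.n τ.K k C.gates[k].2) hPv hxs ?_ ?_
        (f.1 + 1 + (τ.K - 1)) (by rw [hl]; have := τ.hK; omega)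
      · rw [hspec _ hxs (by simp)] at hsim
        have e1 : rel C.n τ.K k C.gates[k].2 (f.1 + 1 + (τ.K - 1)) = mu C.n τ.K (C.n + k) := by
          unfold rel mu
          rw [if_neg (by omega), if_neg (by omega), if_neg (by omega), hlen,
            Nat.add_sub_cancel_left, Nat.add_mul, Nat.one_mul]
          have := τ.hK
          omega
        rw [e1] at hsim
        rw [hsim, BCircuit.env_gate hC hx hk, appB_eq hf]
        refine congrArg f.2 (funext fun i => ?_)
        have hi : (i : ℕ) < C.gates[k].2.length := by rw [hlen]; exact i.2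
        rw [List.getD_cons_succ, List.getD_eq_getElem _ _ (by rw [List.length_map]; exact hi),
          List.getD_eq_getElem _ _ (by rw [List.length_map]; exact hi), List.getElem_map,
          List.getElem_map]
        have := hrefs _ (List.getElem_mem hi)
        exact ih _ this (by omega)
      · intro i hi
        unfold rel
        split_ifs with h1 h2
        · rw [h1, hWn]
          simp
        · obtain ⟨i', rfl⟩ : ∃ i', i = i' + 1 := ⟨i - 1, by omega⟩
          have h3 : i' < C.gates[k].2.length := by omega
          rw [Nat.add_sub_cancel, List.getD_cons_succ, List.getD_eq_getElem _ _ h3,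
            List.getD_eq_getElem _ _ (by rw [List.length_map]; exact h3), List.getElem_map]
        · omega
      · intro j hj
        have hj' : j < τ.K := by rw [← hl]; exact hj
        have e1 : rel C.n τ.K k C.gates[k].2 (f.1 + 1 + j) = C.n + 1 + (k * τ.K + j) := by
          unfold rel
          rw [if_neg (by omega), if_neg (by omega), hlen]
          omega
        rw [e1, hWgate j hj' hj, List.map_map]
        rfl

theorem bred_lastbit (hC : C.Valid B) {x : List Bool} (hx : x.length = C.n) (z : Bool) :
    (bred τ C).env B' (x ++ [z]) (C.n + C.gates.length * τ.K + τ.PT.length) = z := by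
  have hn : (bred τ C).n = C.n + 1 := rfl
  have hx' := length_append_bit τ hx z
  have hpos := τ.pt_pos
  set W := (bred τ C).env B' (x ++ [z]) with hW
  have hWn : W C.n = z := by
    rw [hW, BCircuit.env_input _ (by omega), List.getD_append_right _ _ _ _ (by omega), hx]
    simp
  have hsim := simulate (W := W) (σ := fun r => if r = 0 then C.n else
    C.n + C.gates.length * τ.K + r) (x := [z]) τ.pt_valid rfl ?_ ?_
    (1 + (τ.PT.length - 1)) (by omega)
  · rw [τ.pt_spec _ rfl] at hsim
    rw [if_neg (by omega)] at hsim
    have : 1 + (τ.PT.length - 1) = τ.PT.length := by omega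
    rw [this] at hsim
    exact hsim
  · intro i hi
    have : i = 0 := by omega
    subst this
    rw [if_pos rfl, hWn]
    rfl
  · intro j hj
    rw [if_neg (by omega)]
    have hlt : C.gates.length * τ.K + j < (bred τ C).gates.length := by
      rw [length_bred]
      omega
    have h1 := BCircuit.env_gate (bred_valid τ hC) hx' hlt
    rw [bred_last τ hj, hn] at h1
    have e : C.n + C.gates.length * τ.K + (1 + j) = C.n + 1 + (C.gates.length * τ.K + j) := by
      omega
    rw [e, hW, h1, List.map_map]
    rfl

theorem bred_out_last (hC : C.Valid B) {x : List Bool} (hx : x.length = C.n) (z : Bool) :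
    ∃ l, (bred τ C).out B' (x ++ [z]) = l ++ [z] ∧ l.length = C.outs.length ∧
      (z = false → l = C.out B x) := by
  refine ⟨(C.outs.map (mu C.n τ.K)).map ((bred τ C).env B' (x ++ [z])), ?_, ?_, ?_⟩
  · unfold BCircuit.out
    change (C.outs.map (mu C.n τ.K) ++ [C.n + C.gates.length * τ.K + τ.PT.length]).map _ = _
    rw [List.map_append, List.map_singleton, bred_lastbit τ hC hx]
  · rw [List.length_map, List.length_map]
  · rintro rfl
    unfold BCircuit.out
    rw [List.map_map]
    refine List.map_congr_left fun w hw => ?_
    exact bred_env τ hC hx w (hC.2 w hw).2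

/-- correctness -/
theorem bred_correct (hC : C.Valid B) {y : List Bool} (hy : (bred τ C).IsLocalMin B' y) :
    C.IsLocalMin B (y.take C.n) := by
  obtain ⟨hlen, hmin⟩ := hy
  change y.length = C.n + 1 at hlen
  obtain ⟨x, z, rfl⟩ : ∃ x z, y = x ++ [z] := by
    rcases List.eq_nil_or_concat y with rfl | ⟨x, z, h⟩
    · simp at hlen
    · exact ⟨x, z, by rw [h, List.concat_eq_append]⟩
  have hx : x.length = C.n := by
    rw [List.length_append, List.length_singleton] at hlen
    omega
  rw [List.take_left' hx]
  refine ⟨hx, fun i hi => ?_⟩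
  cases z with
  | true =>
    exfalso
    have h1 := hmin C.n (Nat.lt_succ_self _)
    have h2 : (x ++ [true]).modify C.n (fun b => !b) = x ++ [false] := by
      rw [← hx]
      change flip (x ++ [true]) x.length = x ++ [false]
      refine ext_getD (by rw [length_flip, List.length_append, List.length_append]; rfl)
        fun j hj => ?_
      rw [length_flip] at hj
      rw [getD_flip _ _ _ hj]
      rw [List.length_append, List.length_singleton] at hj
      split_ifs with h
      · subst h
        rw [List.getD_append_right _ _ _ _ le_rfl, List.getD_append_right _ _ _ _ le_rfl]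
        simp
      · rw [List.getD_append _ _ _ _ (by omega), List.getD_append _ _ _ _ (by omega)]
    rw [h2, BCircuit.cost_eq, BCircuit.cost_eq] at h1
    obtain ⟨l, hl1, hl2, _⟩ := bred_out_last τ hC hx true
    obtain ⟨l', hl1', hl2', _⟩ := bred_out_last τ hC hx false
    rw [hl1, hl1', val_append, val_append] at h1
    have h3 := val_lt l'
    rw [hl2'] at h3
    rw [hl2, hl2'] at h1
    simp only [val, Bool.toNat_true, Bool.toNat_false] at h1
    omega
  | false =>
    have h1 := hmin i (by change i < C.n + 1; omega)
    have h2 : (x ++ [false]).modify i (fun b => !b) = x.modify i (fun b => !b) ++ [false] := by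
      change flip (x ++ [false]) i = flip x i ++ [false]
      refine ext_getD (by rw [length_flip, List.length_append, List.length_append, length_flip])
        fun j hj => ?_
      rw [length_flip] at hj
      rw [getD_flip _ _ _ hj]
      rw [List.length_append, List.length_singleton] at hj
      by_cases hjx : j < x.length
      · rw [List.getD_append _ _ _ _ hjx, List.getD_append _ _ _ _ (by
          rw [length_flip]; exact hjx), getD_flip _ _ _ hjx]
      · rw [if_neg (by omega), List.getD_append_right _ _ _ _ (by omega),
          List.getD_append_right _ _ _ _ (by rw [length_flip]; omega), length_flip]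
    have hx2 : (x.modify i (fun b => !b)).length = C.n := by
      change (flip x i).length = C.n
      rw [length_flip, hx]
    rw [h2, BCircuit.cost_eq, BCircuit.cost_eq] at h1
    obtain ⟨l, hl1, hl2, hl3⟩ := bred_out_last τ hC hx false
    obtain ⟨l', hl1', hl2', hl3'⟩ := bred_out_last τ hC hx2 false
    rw [hl1, hl1', hl3 rfl, hl3' rfl, val_append, val_append] at h1
    simp only [val, Bool.toNat_false] at h1
    rw [BCircuit.cost_eq, BCircuit.cost_eq]
    omega

end

end Pool.Agent.MPa0a715
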