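import Pool.Agent.Lib.MP_a0a715_lc.Basis.Defs
import Pool.Agent.Lib.MP_a0a715_lc.Sem

/-!
# Semantics of circuits over a basis; programs
-/

namespace Pool.Agent.MPa0a715

open Pool.Agent.PolyTime

/-- run a list of gates -/
def brun (B : List BFun) (gs : List (ℕ × List ℕ)) (x : List Bool) : List Bool :=
  gs.foldl (fun v g => v ++ [appB B g.1 (g.2.map fun r => v.getD r false)]) x

section
variable {B : List BFun}

theorem brun_cons (g : ℕ × List ℕ) (gs : List (ℕ × List ℕ)) (x : List Bool) :
    brun B (g :: gs) x = brun B gs (x ++ [appB B g.1 (g.2.map fun r => x.getD r false)]) := rfl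

theorem brun_append (gs gs' : List (ℕ × List ℕ)) (x : List Bool) :
    brun B (gs ++ gs') x = brun B gs' (brun B gs x) := by
  unfold brun
  rw [List.foldl_append]

theorem length_brun (gs : List (ℕ × List ℕ)) (x : List Bool) :
    (brun B gs x).length = x.length + gs.length := by
  induction gs generalizing x with
  | nil => rfl
  | cons g gs ih =>
    rw [brun_cons, ih, List.length_append, List.length_singleton, List.length_cons]
    omega

theorem brun_prefix (gs : List (ℕ × List ℕ)) (x : List Bool) : ∃ l, brun B gs x = x ++ l := by
  induction gs generalizing x with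
  | nil => exact ⟨[], (List.append_nil x).symm⟩
  | cons g gs ih =>
    obtain ⟨l, hl⟩ := ih (x ++ [appB B g.1 (g.2.map fun r => x.getD r false)])
    refine ⟨appB B g.1 (g.2.map fun r => x.getD r false) :: l, ?_⟩
    rw [brun_cons, hl, List.append_assoc, List.singleton_append]

theorem brun_getD_lt (gs : List (ℕ × List ℕ)) (x : List Bool) {w : ℕ} (hw : w < x.length) :
    (brun B gs x).getD w false = x.getD w false := by
  obtain ⟨l, hl⟩ := brun_prefix (B := B) gs x
  rw [hl, List.getD_append _ _ _ _ hw]

/-- valid programs with `k` inputs -/
def PValid (B : List BFun) (k : ℕ) (P : List (ℕ × List ℕ)) : Prop :=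
  ∀ (j : ℕ) (h : j < P.length), (∃ f, B[P[j].1]? = some f ∧ P[j].2.length = f.1) ∧
    ∀ r ∈ P[j].2, r < k + j

theorem brun_gate {gs : List (ℕ × List ℕ)} {x : List Bool} {n : ℕ} (hx : x.length = n)
    (hv : PValid B n gs) (k : ℕ) (hk : k < gs.length) :
    (brun B gs x).getD (n + k) false =
      appB B gs[k].1 (gs[k].2.map fun r => (brun B gs x).getD r false) := by
  have hsplit : gs = gs.take k ++ gs[k] :: gs.drop (k + 1) := by
    rw [← List.drop_eq_getElem_cons hk, List.take_append_drop]
  have hlen : (brun B (gs.take k) x).length = n + k := by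
    rw [length_brun, hx, List.length_take]
    omega
  have h1 : brun B gs x = brun B (gs.drop (k + 1)) (brun B (gs.take k) x ++
      [appB B gs[k].1 (gs[k].2.map fun r => (brun B (gs.take k) x).getD r false)]) := by
    conv_lhs => rw [hsplit]
    rw [brun_append, brun_cons]
  have h2 : (brun B gs x).getD (n + k) false =
      appB B gs[k].1 (gs[k].2.map fun r => (brun B (gs.take k) x).getD r false) := by
    rw [h1, brun_getD_lt _ _ (by rw [List.length_append, hlen]; simp)]
    rw [List.getD_append_right _ _ _ _ (by rw [hlen]), hlen]
    simp
  rw [h2]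
  congr 1
  refine List.map_congr_left fun r hr => ?_
  have h3 := (hv k hk).2 r hr
  have h4 : (brun B gs x).getD r false = (brun B (gs.take k) x).getD r false := by
    rw [h1, brun_getD_lt _ _ (by rw [List.length_append, hlen]; omega),
      List.getD_append _ _ _ _ (by rw [hlen]; exact h3)]
  exact h4.symm

/-- If `W` satisfies the equations of the program along the embedding `σ` of its wires, it gives
the values of the program. -/
theorem simulate {P : List (ℕ × List ℕ)} {k : ℕ} (hP : PValid B k P) {x : List Bool}
    (hx : x.length = k) {W : ℕ → Bool} {σ : ℕ → ℕ} (h0 : ∀ i < k, W (σ i) = x.getD i false)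
    (h1 : ∀ (j : ℕ) (h : j < P.length), W (σ (k + j)) = appB B P[j].1 (P[j].2.map fun r =>
      W (σ r))) :
    ∀ w < k + P.length, W (σ w) = (brun B P x).getD w false := by
  intro w
  induction w using Nat.strong_induction_on with
  | _ w ih =>
    intro hw
    by_cases hwk : w < k
    · rw [h0 w hwk, brun_getD_lt _ _ (by omega)]
    · obtain ⟨j, rfl⟩ : ∃ j, w = k + j := ⟨w - k, by omega⟩
      have hj : j < P.length := by omega
      rw [h1 j hj, brun_gate hx hP j hj]
      congr 1
      refine List.map_congr_left fun r hr => ?_
      have := (hP j hj).2 r hr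
      exact ih r this (by omega)

theorem appB_eq {b : ℕ} {f : BFun} (hf : B[b]? = some f) (l : List Bool) :
    appB B b l = f.2 fun i => l.getD i false := by
  unfold appB
  rw [hf]

/-! ### circuits -/

/-- values of the wires -/
def BCircuit.env (B : List BFun) (C : BCircuit) (x : List Bool) (w : ℕ) : Bool :=
  (C.wires B x).getD w false

theorem BCircuit.env_input (C : BCircuit) {x : List Bool} {i : ℕ} (hi : i < x.length) :
    C.env B x i = x.getD i false := brun_getD_lt _ _ hi

theorem BCircuit.pvalid {C : BCircuit} (hC : C.Valid B) : PValid B C.n C.gates := hC.1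

theorem BCircuit.env_gate {C : BCircuit} (hC : C.Valid B) {x : List Bool} (hx : x.length = C.n)
    {k : ℕ} (hk : k < C.gates.length) :
    C.env B x (C.n + k) = appB B C.gates[k].1 (C.gates[k].2.map (C.env B x)) :=
  brun_gate hx hC.1 k hk

/-- the list of output bits -/
def BCircuit.out (B : List BFun) (C : BCircuit) (x : List Bool) : List Bool :=
  C.outs.map (C.env B x)

theorem BCircuit.cost_eq (C : BCircuit) (x : List Bool) : C.cost B x = 2 * val (C.out B x) := by
  rw [val_sum, Finset.mul_sum]
  unfold BCircuit.cost BCircuit.out
  rw [List.length_map]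
  refine Finset.sum_congr rfl fun j hj => ?_
  rw [Finset.mem_range] at hj
  have h1 : (C.outs.map (C.env B x)).getD j false = C.env B x (C.outs.getD j 0) := by
    rw [List.getD_eq_getElem _ _ (by rw [List.length_map]; exact hj), List.getElem_map,
      List.getD_eq_getElem _ _ hj]
  rw [h1]
  unfold BCircuit.env
  split_ifs
  · rw [pow_succ]; ring
  · rfl

/-! ### functions computed by formulas over the basis -/

/-- functions of the first `k` variables given by formulas over the basis -/
inductive Cl (B : List BFun) (k : ℕ) : ((ℕ → Bool) → Bool) → Prop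
  | var (i : ℕ) (h : i < k) : Cl B k fun v => v i
  | app (b : ℕ) (f : BFun) (hf : B[b]? = some f) (g : Fin f.1 → (ℕ → Bool) → Bool)
      (hg : ∀ i, Cl B k (g i)) : Cl B k fun v => f.2 fun i => g i v

theorem Cl.subst {k k' : ℕ} {h : (ℕ → Bool) → Bool} (hh : Cl B k' h)
    {s : ℕ → (ℕ → Bool) → Bool} (hs : ∀ i < k', Cl B k (s i)) :
    Cl B k fun v => h fun i => s i v := by
  induction hh with
  | var i hi => exact hs i hi
  | app b f hf g _ ih => exact Cl.app b f hf (fun i v => g i fun j => s j v) ih

/-! ### programs for such functions -/

/-- shift the inner wires of a program with `k` inputs by `d` -/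
def reloc (k d : ℕ) (P : List (ℕ × List ℕ)) : List (ℕ × List ℕ) :=
  P.map fun g => (g.1, g.2.map fun r => if r < k then r else r + d)

theorem length_reloc (k d : ℕ) (P : List (ℕ × List ℕ)) : (reloc k d P).length = P.length := by
  unfold reloc
  rw [List.length_map]

theorem pvalid_append_reloc {k : ℕ} {P Q : List (ℕ × List ℕ)} (hP : PValid B k P)
    (hQ : PValid B k Q) : PValid B k (P ++ reloc k P.length Q) := by
  intro j hj
  by_cases h : j < P.length
  · rw [List.getElem_append_left h]
    exact hP j h
  · have hj' : j - P.length < Q.length := by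
      rw [List.length_append, length_reloc] at hj
      omega
    rw [List.getElem_append_right (by omega)]
    have h1 : (reloc k P.length Q)[j - P.length]'(by rw [length_reloc]; exact hj') =
        (Q[j - P.length].1, Q[j - P.length].2.map fun r =>
          if r < k then r else r + P.length) := by
      unfold reloc
      rw [List.getElem_map]
    rw [h1]
    obtain ⟨h2, h3⟩ := hQ _ hj'
    refine ⟨by simpa using h2, ?_⟩
    intro r hr
    obtain ⟨r', hr', rfl⟩ := List.mem_map.1 hr
    have := h3 r' hr'
    split_ifs <;> omega

theorem brun_append_left {k : ℕ} (P Q : List (ℕ × List ℕ)) {x : List Bool} (hx : x.length = k)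
    {w : ℕ} (hw : w < k + P.length) :
    (brun B (P ++ Q) x).getD w false = (brun B P x).getD w false := by
  rw [brun_append, brun_getD_lt _ _ (by rw [length_brun, hx]; exact hw)]

theorem brun_append_reloc {k : ℕ} {P Q : List (ℕ × List ℕ)} (hP : PValid B k P)
    (hQ : PValid B k Q) {x : List Bool} (hx : x.length = k) :
    ∀ w < k + Q.length, (brun B (P ++ reloc k P.length Q) x).getD
      (if w < k then w else w + P.length) false = (brun B Q x).getD w false := by
  refine simulate (W := fun w => (brun B (P ++ reloc k P.length Q) x).getD w false)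
    (σ := fun w => if w < k then w else w + P.length) hQ hx ?_ ?_
  · intro i hi
    rw [if_pos hi, brun_getD_lt _ _ (by omega)]
  · intro j hj
    rw [if_neg (by omega), show k + j + P.length = k + (P.length + j) by omega,
      brun_gate hx (pvalid_append_reloc hP hQ) (P.length + j)
        (by rw [List.length_append, length_reloc]; omega)]
    have h1 : (P ++ reloc k P.length Q)[P.length + j]'(by
        rw [List.length_append, length_reloc]; omega) =
        (Q[j].1, Q[j].2.map fun r => if r < k then r else r + P.length) := by
      rw [List.getElem_append_right (by omega)]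
      unfold reloc
      simp
    rw [h1]
    dsimp only
    rw [List.map_map]
    rfl

/-- several functions computed by one program -/
theorem combine {k : ℕ} (m : ℕ) (g : ℕ → (ℕ → Bool) → Bool)
    (h : ∀ i < m, ∃ P, PValid B k P ∧ ∃ w < k + P.length, ∀ x : List Bool, x.length = k →
      (brun B P x).getD w false = g i fun i => x.getD i false) :
    ∃ P, PValid B k P ∧ ∃ w : ℕ → ℕ, (∀ i < m, w i < k + P.length) ∧
      ∀ x : List Bool, x.length = k → ∀ i < m,
        (brun B P x).getD (w i) false = g i fun i => x.getD i false := by
  induction m with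
  | zero =>
    refine ⟨[], fun j hj => absurd hj (Nat.not_lt_zero j), fun _ => 0, ?_, ?_⟩
    · intro i hi; omega
    · intro x _ i hi; omega
  | succ m ih =>
    obtain ⟨P, hP, w, hw, hv⟩ := ih fun i hi => h i (by omega)
    obtain ⟨Q, hQ, u, hu, hq⟩ := h m (by omega)
    refine ⟨P ++ reloc k P.length Q, pvalid_append_reloc hP hQ,
      fun i => if i = m then (if u < k then u else u + P.length) else w i, ?_, ?_⟩
    · intro i hi
      dsimp only
      rw [List.length_append, length_reloc]
      by_cases him : i = m
      · rw [if_pos him]
        split_ifs <;> omega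
      · rw [if_neg him]
        have := hw i (by omega)
        omega
    · intro x hx i hi
      dsimp only
      by_cases him : i = m
      · subst him
        rw [if_pos rfl, brun_append_reloc hP hQ hx u hu, hq x hx]
      · rw [if_neg him, brun_append_left _ _ hx (hw i (by omega)), hv x hx i (by omega)]

/-- a program for an application of a basis function; the value is the last wire -/
theorem prog_app {k : ℕ} {b : ℕ} {f : BFun} (hf : B[b]? = some f)
    {g : Fin f.1 → (ℕ → Bool) → Bool}
    (h : ∀ i, ∃ P, PValid B k P ∧ ∃ w < k + P.length, ∀ x : List Bool, x.length = k →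
      (brun B P x).getD w false = g i fun i => x.getD i false) :
    ∃ P, PValid B k P ∧ 0 < P.length ∧ ∀ x : List Bool, x.length = k →
      (brun B P x).getD (k + (P.length - 1)) false = f.2 fun i => g i fun i => x.getD i false := by
  obtain ⟨P, hP, w, hw, hv⟩ := combine (B := B) (k := k) f.1
    (fun i => if hi : i < f.1 then g ⟨i, hi⟩ else fun _ => false) (fun i hi => by
      obtain ⟨P, h1, u, h2, h3⟩ := h ⟨i, hi⟩
      refine ⟨P, h1, u, h2, ?_⟩
      rw [dif_pos hi]
      exact h3)
  have hvalid : PValid B k (P ++ [(b, (List.range f.1).map w)]) := by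
    intro j hj
    by_cases hjP : j < P.length
    · rw [List.getElem_append_left hjP]
      exact hP j hjP
    · rw [List.length_append, List.length_singleton] at hj
      have : j = P.length := by omega
      subst this
      rw [List.getElem_append_right (by omega)]
      simp only [Nat.sub_self, List.getElem_cons_zero, List.length_map, List.length_range]
      refine ⟨⟨f, hf, rfl⟩, ?_⟩
      intro r hr
      obtain ⟨i, hi, rfl⟩ := List.mem_map.1 hr
      exact hw i (List.mem_range.1 hi)
  refine ⟨P ++ [(b, (List.range f.1).map w)], hvalid, by simp, ?_⟩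
  intro x hx
  have h1 := brun_gate hx hvalid P.length (by simp)
  rw [List.length_append, List.length_singleton, Nat.add_sub_cancel, h1]
  rw [List.getElem_append_right (by omega)]
  simp only [Nat.sub_self, List.getElem_cons_zero]
  rw [appB_eq hf]
  refine congrArg f.2 (funext fun i => ?_)
  rw [List.map_map, List.getD_eq_getElem _ _ (by simp), List.getElem_map, List.getElem_range]
  simp only [Function.comp_apply]
  rw [brun_append_left _ _ hx (hw i i.2), hv x hx i i.2, dif_pos i.2]

theorem exists_prog {k : ℕ} {g : (ℕ → Bool) → Bool} (h : Cl B k g) :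
    ∃ P, PValid B k P ∧ ∃ w < k + P.length, ∀ x : List Bool, x.length = k →
      (brun B P x).getD w false = g fun i => x.getD i false := by
  induction h with
  | var i hi =>
    exact ⟨[], fun j hj => absurd hj (Nat.not_lt_zero j), i, by simpa using hi, fun x _ => rfl⟩
  | app b f hf g _ ih =>
    obtain ⟨P, h1, h2, h3⟩ := prog_app hf ih
    exact ⟨P, h1, k + (P.length - 1), by omega, h3⟩

/-- programs of every large length -/
theorem prog_len {k : ℕ} (hk : 0 < k) {b : ℕ} {f : BFun} (hf : B[b]? = some f)
    {g : Fin f.1 → (ℕ → Bool) → Bool} (hg : ∀ i, Cl B k (g i)) :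
    ∃ K0, ∀ K, K0 ≤ K → ∃ P, PValid B k P ∧ P.length = K ∧ 0 < K ∧
      ∀ x : List Bool, x.length = k →
      (brun B P x).getD (k + (K - 1)) false = f.2 fun i => g i fun i => x.getD i false := by
  obtain ⟨P, h1, h2, h3⟩ := prog_app hf fun i => exists_prog (hg i)
  refine ⟨P.length, fun K hK => ?_⟩
  -- useless gates in front
  have hD : PValid B k (List.replicate (K - P.length) (b, List.replicate f.1 0)) := by
    intro j hj
    rw [List.getElem_replicate]
    refine ⟨⟨f, hf, List.length_replicate⟩, ?_⟩
    intro r hr
    rw [List.mem_replicate] at hr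
    omega
  have hl : (List.replicate (K - P.length) (b, List.replicate f.1 0)).length = K - P.length :=
    List.length_replicate
  refine ⟨List.replicate (K - P.length) (b, List.replicate f.1 0) ++
    reloc k (List.replicate (K - P.length) (b, List.replicate f.1 0)).length P,
    pvalid_append_reloc hD h1, ?_, by omega, ?_⟩
  · rw [List.length_append, length_reloc, hl]
    omega
  · intro x hx
    have h4 := brun_append_reloc hD h1 hx (k + (P.length - 1)) (by omega)
    rw [if_neg (by omega), h3 x hx] at h4
    rw [← h4]
    congr 1
    omega

end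

end Pool.Agent.MPa0a715
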